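import Mathlib

set_option autoImplicit false

namespace Pool.Agent.H58Slow

open Finset

/-- prefix sums of the increments `J x + 1` -/
def P (J : ℕ → ℕ) (n : ℕ) : ℕ := ∑ x ∈ range n, (J x + 1)

/-- the nodes of a chain: `node 0` is the second point `n + e`, the first point is `n` -/
def node (n e : ℕ) (d : ℕ → ℕ) (t : ℕ) : ℕ := n + e + ∑ i ∈ range t, d i

/-- the points `n, n + e, node 1, …, node K` are collinear on the graph of `F` -/
def Chain (F : ℕ → ℕ) (n e : ℕ) (d : ℕ → ℕ) (K : ℕ) : Prop :=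
  ∀ t, t < K → ((F (node n e d (t + 1)) : ℤ) - F (node n e d t)) * e =
    ((F (n + e) : ℤ) - F n) * d t

end Pool.Agent.H58Slow
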