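import Pool.Agent.H58Slow.Mods

set_option autoImplicit false

namespace Pool.Agent.H58Slow

open Finset

/-- number of choices for the increment at `x` -/
def cc (M x : ℕ) : ℕ := M * 2 ^ padicValNat 2 (x + 1)

/-- extension by zero -/
def ext {N : ℕ} (J : Fin N → ℕ) (x : ℕ) : ℕ := if h : x < N then J ⟨x, h⟩ else 0

theorem node_congr {n e : ℕ} {d d' : ℕ → ℕ} {K : ℕ} (h : ∀ t, t < K → d t = d' t) {t : ℕ}
    (ht : t ≤ K) : node n e d t = node n e d' t := by
  unfold node
  rw [sum_congr rfl (fun i hi => h i (by rw [mem_range] at hi; omega))]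

theorem node_succ (n e : ℕ) (d : ℕ → ℕ) (t : ℕ) : node n e d (t + 1) = node n e d t + d t := by
  unfold node
  rw [sum_range_succ]
  ring

theorem node_mono (n e : ℕ) (d : ℕ → ℕ) : Monotone (node n e d) :=
  monotone_nat_of_le_succ (fun t => by rw [node_succ]; omega)

theorem bad_card {N M K n e : ℕ} (d : ℕ → ℕ) (he : 1 ≤ e) (hd : ∀ t, t < K → 1 ≤ d t)
    (hN : node n e d K ≤ N) (Bd : Finset (Fin N → ℕ))
    (hB : ∀ J ∈ Bd, ∀ x : Fin N, J x < cc M x) (hC : ∀ J ∈ Bd, Chain (P (ext J)) n e d K) :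
    Bd.card * ∏ t : Fin K, (M * 2 ^ Nat.log 2 (d t)) ≤ ∏ x : Fin N, cc M x := by
  classical
  have hex : ∀ t, ∃ x, t < K → (node n e d t ≤ x ∧ x < node n e d (t + 1) ∧
      Nat.log 2 (d t) ≤ padicValNat 2 (x + 1)) := by
    intro t
    by_cases ht : t < K
    · obtain ⟨x, h1, h2, h3⟩ := exists_val (node n e d t) (d t) (hd t ht)
      refine ⟨x, fun _ => ⟨h1, ?_, h3⟩⟩
      rw [node_succ]
      exact h2
    · exact ⟨0, fun h => absurd h ht⟩
  choose xs hxs using hex
  have hmono := node_mono n e d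
  have hltK : ∀ t, t < K → xs t < node n e d K := fun t ht =>
    (hxs t ht).2.1.trans_le (hmono (by omega))
  have hlt : ∀ t, t < K → xs t < N := fun t ht => (hltK t ht).trans_le hN
  let φ : Fin K → Fin N := fun t => ⟨xs t, hlt t t.2⟩
  have hφ : Function.Injective φ := by
    intro t t' htt
    have h0 : xs t = xs t' := congrArg Fin.val htt
    rcases Nat.lt_trichotomy (t : ℕ) t' with h1 | h1 | h1
    · have h2 := (hxs t t.2).2.1
      have h3 := (hxs t' t'.2).1
      have h4 := hmono (show (t : ℕ) + 1 ≤ t' from h1)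
      omega
    · exact Fin.ext h1
    · have h2 := (hxs t' t'.2).2.1
      have h3 := (hxs t t.2).1
      have h4 := hmono (show (t' : ℕ) + 1 ≤ t from h1)
      omega
  have hdet : ∀ J ∈ Bd, ∀ J' ∈ Bd, (∀ x, x ∉ univ.image φ → J x = J' x) → J = J' := by
    intro J hJ J' hJ' hag
    have h1 := det he xs (fun t ht => ⟨(hxs t ht).1, (hxs t ht).2.1⟩) (hC J hJ) (hC J' hJ') (by
      intro x hx hne
      have hxN : x < N := hx.trans_le hN
      unfold ext
      rw [dif_pos hxN, dif_pos hxN]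
      apply hag
      intro hmem
      rw [mem_image] at hmem
      obtain ⟨t, _, ht⟩ := hmem
      exact hne t t.2 (congrArg Fin.val ht).symm)
    funext x
    by_cases hx : (x : ℕ) < node n e d K
    · have h2 := h1 x hx
      unfold ext at h2
      rw [dif_pos x.2, dif_pos x.2] at h2
      exact h2
    · apply hag
      intro hmem
      rw [mem_image] at hmem
      obtain ⟨t, _, ht⟩ := hmem
      have h2 : xs t = x := congrArg Fin.val ht
      have h3 := hltK t t.2
      omega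
  have h1 := card_inj (fun x : Fin N => cc M x) (univ.image φ) Bd hB hdet
  rw [prod_image (fun x _ y _ h => hφ h)] at h1
  refine le_trans (Nat.mul_le_mul_left _ ?_) h1
  refine prod_le_prod' ?_
  intro t _
  exact Nat.mul_le_mul_left _ (Nat.pow_le_pow_right (by norm_num) (hxs t t.2).2.2)

theorem finite_exists (j M K : ℕ) (hM : 1 ≤ M)
    (h : ((2 : ℝ) ^ j + 1) ^ 2 * ((j : ℝ) + 1) ^ K < (M : ℝ) ^ K) :
    ∃ J : ℕ → ℕ, (∀ x, J x < M * 2 ^ padicValNat 2 (x + 1)) ∧
      ∀ (n e : ℕ) (d : ℕ → ℕ), 1 ≤ e → (∀ t, t < K → 1 ≤ d t) → node n e d K ≤ 2 ^ j →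
        ¬ Chain (P J) n e d K := by
  classical
  set N : ℕ := 2 ^ j with hNdef
  by_contra hcon
  push Not at hcon
  let Ω : Finset (Fin N → ℕ) := Fintype.piFinset (fun x : Fin N => range (cc M x))
  have hΩcard : Ω.card = ∏ x : Fin N, cc M x := by
    simp [Ω, Fintype.card_piFinset]
  let D : Finset (Fin K → ℕ) := Fintype.piFinset (fun _ : Fin K => range N)
  let I : Finset (ℕ × ℕ × (Fin K → ℕ)) := range (N + 1) ×ˢ (range N ×ˢ D)
  let de : (Fin K → ℕ) → ℕ → ℕ := fun d' t => if h : t < K then d' ⟨t, h⟩ + 1 else 0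
  let Bad : ℕ × ℕ × (Fin K → ℕ) → Finset (Fin N → ℕ) := fun i =>
    Ω.filter (fun J => node i.1 (i.2.1 + 1) (de i.2.2) K ≤ N ∧
      Chain (P (ext J)) i.1 (i.2.1 + 1) (de i.2.2) K)
  have hcpos : ∀ x, 0 < cc M x := fun x => Nat.mul_pos hM (Nat.pow_pos (by norm_num))
  -- every J is bad
  have hcover : Ω ⊆ I.biUnion Bad := by
    intro J hJ
    have hJ' : ∀ x : Fin N, J x < cc M x := by
      intro x
      have := (Fintype.mem_piFinset.mp hJ) x
      rwa [mem_range] at this
    obtain ⟨n, e, d, he, hd, hnode, hch⟩ := hcon (ext J) (by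
      intro x
      unfold ext
      split
      · exact hJ' _
      · exact hcpos x)
    have hnd : ∀ t, t < K → d t ≤ N := by
      intro t ht
      have h1 := node_mono n e d (show t + 1 ≤ K from ht)
      rw [node_succ] at h1
      omega
    have hn0 : n + e ≤ N := by
      have h1 := node_mono n e d (Nat.zero_le K)
      have h2 : node n e d 0 = n + e := by simp [node]
      omega
    have hde : ∀ t, t < K → d t = de (fun t : Fin K => d t - 1) t := by
      intro t ht
      have := hd t ht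
      simp only [de]
      rw [dif_pos ht]
      omega
    rw [mem_biUnion]
    refine ⟨(n, e - 1, fun t : Fin K => d t - 1), ?_, ?_⟩
    · simp only [I, D, mem_product, mem_range, Fintype.mem_piFinset]
      refine ⟨by omega, by omega, ?_⟩
      intro t
      have h1 := hd t t.2
      have h2 := hnd t t.2
      omega
    · simp only [Bad, mem_filter]
      have he' : e - 1 + 1 = e := by omega
      rw [he']
      refine ⟨hJ, ?_, ?_⟩
      · rw [← node_congr hde le_rfl]
        exact hnode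
      · intro t ht
        have h1 := hch t ht
        rw [← node_congr hde (show t + 1 ≤ K from ht), ← node_congr hde ht.le, ← hde t ht]
        exact h1
  have h1 : Ω.card ≤ ∑ i ∈ I, (Bad i).card := (card_le_card hcover).trans card_biUnion_le
  have hMR : (0 : ℝ) < M := by exact_mod_cast hM
  -- bound of one bad set
  have h2 : ∀ i ∈ I, ((Bad i).card : ℝ) ≤
      (Ω.card : ℝ) * ∏ t : Fin K, ((1 : ℝ) / (M * 2 ^ Nat.log 2 (i.2.2 t + 1))) := by
    intro i _
    by_cases hnode : node i.1 (i.2.1 + 1) (de i.2.2) K ≤ N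
    · have h3 := bad_card (M := M) (de i.2.2) (by omega : 1 ≤ i.2.1 + 1) (by
        intro t ht
        simp only [de]
        rw [dif_pos ht]
        omega) hnode (Bad i) (by
          intro J hJ x
          simp only [Bad, mem_filter] at hJ
          have := (Fintype.mem_piFinset.mp hJ.1) x
          rwa [mem_range] at this) (by
          intro J hJ
          simp only [Bad, mem_filter] at hJ
          exact hJ.2.2)
      rw [← hΩcard] at h3
      have h4 : ∏ t : Fin K, (M * 2 ^ Nat.log 2 (de i.2.2 t))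
          = ∏ t : Fin K, (M * 2 ^ Nat.log 2 (i.2.2 t + 1)) := by
        refine prod_congr rfl ?_
        intro t _
        simp only [de]
        rw [dif_pos t.2]
      rw [h4] at h3
      have h5 : ((Bad i).card : ℝ) * ∏ t : Fin K, ((M : ℝ) * 2 ^ Nat.log 2 (i.2.2 t + 1))
          ≤ Ω.card := by exact_mod_cast h3
      have h6 : (0 : ℝ) < ∏ t : Fin K, ((M : ℝ) * 2 ^ Nat.log 2 (i.2.2 t + 1)) :=
        prod_pos (fun t _ => by positivity)
      rw [prod_div_distrib, prod_const_one, mul_one_div, le_div_iff₀ h6]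
      exact h5
    · have h3 : Bad i = ∅ := by
        simp only [Bad]
        rw [filter_eq_empty_iff]
        intro J _ hh
        exact hnode hh.1
      rw [h3, card_empty, Nat.cast_zero]
      have : (0 : ℝ) ≤ ∏ t : Fin K, ((1 : ℝ) / (M * 2 ^ Nat.log 2 (i.2.2 t + 1))) :=
        prod_nonneg (fun t _ => by positivity)
      positivity
  have hΩpos : (0 : ℝ) < Ω.card := by
    rw [hΩcard]
    have hpp : 0 < ∏ x : Fin N, cc M x := prod_pos (fun x _ => hcpos x)
    exact_mod_cast hpp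
  have h3 : (Ω.card : ℝ) ≤ ∑ i ∈ I,
      (Ω.card : ℝ) * ∏ t : Fin K, ((1 : ℝ) / (M * 2 ^ Nat.log 2 (i.2.2 t + 1))) := by
    calc (Ω.card : ℝ) ≤ ((∑ i ∈ I, (Bad i).card : ℕ) : ℝ) := by exact_mod_cast h1
      _ = ∑ i ∈ I, ((Bad i).card : ℝ) := by push_cast; rfl
      _ ≤ _ := sum_le_sum h2
  have h4 : ∑ i ∈ I, (Ω.card : ℝ) * ∏ t : Fin K, ((1 : ℝ) / (M * 2 ^ Nat.log 2 (i.2.2 t + 1)))
      = Ω.card * (((N : ℝ) + 1) * (N * (∑ d ∈ range N, (1 : ℝ) / (M * 2 ^ Nat.log 2 (d + 1))) ^ K)) := by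
    rw [← mul_sum]
    congr 1
    simp only [I]
    rw [sum_product]
    simp only [sum_product, sum_const, card_range, nsmul_eq_mul]
    have h5 : ∑ d ∈ D, ∏ t : Fin K, ((1 : ℝ) / (M * 2 ^ Nat.log 2 (d t + 1)))
        = (∑ d ∈ range N, (1 : ℝ) / (M * 2 ^ Nat.log 2 (d + 1))) ^ K := by
      simp only [D]
      rw [← Finset.prod_univ_sum (fun _ : Fin K => range N)
        (fun _ d => (1 : ℝ) / (M * 2 ^ Nat.log 2 (d + 1)))]
      simp
    rw [h5]
    push_cast
    ring
  rw [h4] at h3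
  have h5 : ∑ d ∈ range N, (1 : ℝ) / (M * 2 ^ Nat.log 2 (d + 1)) ≤ ((j : ℝ) + 1) / M := by
    have h6 := sum_log j
    rw [← hNdef] at h6
    have h7 : ∑ d ∈ range N, (1 : ℝ) / (M * 2 ^ Nat.log 2 (d + 1))
        = (∑ d ∈ range N, (1 : ℝ) / 2 ^ Nat.log 2 (d + 1)) / M := by
      rw [sum_div]
      refine sum_congr rfl ?_
      intro d _
      rw [div_div, mul_comm]
    rw [h7]
    exact div_le_div_of_nonneg_right h6 hMR.le
  have h6 : (0 : ℝ) ≤ ∑ d ∈ range N, (1 : ℝ) / (M * 2 ^ Nat.log 2 (d + 1)) :=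
    sum_nonneg (fun d _ => by positivity)
  have h7 : (∑ d ∈ range N, (1 : ℝ) / (M * 2 ^ Nat.log 2 (d + 1))) ^ K ≤ (((j : ℝ) + 1) / M) ^ K :=
    pow_le_pow_left₀ h6 h5 K
  have hNR : (N : ℝ) = 2 ^ j := by
    rw [hNdef]
    push_cast
    rfl
  have h8 : ((N : ℝ) + 1) * (N * (((j : ℝ) + 1) / M) ^ K) < 1 := by
    rw [div_pow]
    have h9 : (0 : ℝ) < (M : ℝ) ^ K := by positivity
    have h10 : ((N : ℝ) + 1) * (N * (((j : ℝ) + 1) ^ K / (M : ℝ) ^ K))
        = (((N : ℝ) + 1) * N * ((j : ℝ) + 1) ^ K) / (M : ℝ) ^ K := by ring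
    rw [h10, div_lt_one h9]
    refine lt_of_le_of_lt ?_ h
    rw [← hNR]
    have h11 : (0 : ℝ) ≤ ((j : ℝ) + 1) ^ K := by positivity
    have h12 : ((N : ℝ) + 1) * N ≤ ((N : ℝ) + 1) ^ 2 := by
      have : (0 : ℝ) ≤ N := Nat.cast_nonneg _
      nlinarith
    exact mul_le_mul_of_nonneg_right h12 h11
  have h9 : ((N : ℝ) + 1) * (N * (∑ d ∈ range N, (1 : ℝ) / (M * 2 ^ Nat.log 2 (d + 1))) ^ K) < 1 := by
    refine lt_of_le_of_lt ?_ h8
    have : (0 : ℝ) ≤ N := Nat.cast_nonneg _
    gcongr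
  nlinarith

end Pool.Agent.H58Slow
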