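import Pool.Agent.H58Slow.Basic
set_option autoImplicit false
namespace Pool.Agent.H58Slow
open Finset

namespace Glue

variable (L R s : ℕ → ℕ) (f : ℕ → ℕ → ℕ)

/-- start of window `j` -/
def S (j : ℕ) : ℕ := ∑ i ∈ range j, L i

/-- value at the start of window `j` -/
def B (j : ℕ) : ℕ := ∑ i ∈ range j, (s i * L i + R i)

theorem S_succ (j : ℕ) : S L (j + 1) = S L j + L j := by simp [S, sum_range_succ]
theorem B_succ (j : ℕ) : B L R s (j + 1) = B L R s j + (s j * L j + R j) := by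
  simp [B, sum_range_succ]
theorem S_zero : S L 0 = 0 := by simp [S]

theorem S_mono : Monotone (S L) := monotone_nat_of_le_succ (fun j => by rw [S_succ]; omega)

theorem le_S (hL : ∀ j, 1 ≤ L j) (j : ℕ) : j ≤ S L j := by
  induction j with
  | zero => exact Nat.zero_le _
  | succ j ih =>
    rw [S_succ]
    have := hL j
    omega

/-- the window of `n` -/
def idx (n : ℕ) : ℕ := Nat.findGreatest (fun j => S L j ≤ n) n

theorem S_idx_le (n : ℕ) : S L (idx L n) ≤ n :=
  Nat.findGreatest_spec (P := fun j => S L j ≤ n) (Nat.zero_le n) (by simp [S_zero])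

theorem lt_S_idx (hL : ∀ j, 1 ≤ L j) (n : ℕ) : n < S L (idx L n + 1) := by
  by_contra h
  push Not at h
  have h1 : idx L n + 1 ≤ n := (le_S L hL _).trans h
  exact Nat.findGreatest_is_greatest (P := fun j => S L j ≤ n) (Nat.lt_succ_self _) h1 h

theorem idx_eq (hL : ∀ j, 1 ≤ L j) {n j : ℕ} (h1 : S L j ≤ n) (h2 : n < S L (j + 1)) :
    idx L n = j := by
  have h3 := S_idx_le L n
  have h4 := lt_S_idx L hL n
  rcases Nat.lt_trichotomy (idx L n) j with h | h | h
  · have := S_mono L (show idx L n + 1 ≤ j from h)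
    omega
  · exact h
  · have := S_mono L (show j + 1 ≤ idx L n from h)
    omega

/-- the sequence -/
def a (n : ℕ) : ℕ :=
  B L R s (idx L n) + s (idx L n) * (n - S L (idx L n)) + f (idx L n) (n - S L (idx L n))

theorem a_eq (hL : ∀ j, 1 ≤ L j) {j x : ℕ} (hx : x < L j) :
    a L R s f (S L j + x) = B L R s j + s j * x + f j x := by
  have h : idx L (S L j + x) = j := idx_eq L hL (by omega) (by rw [S_succ]; omega)
  unfold a
  rw [h, Nat.add_sub_cancel_left]

theorem exists_rep (hL : ∀ j, 1 ≤ L j) (n : ℕ) :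
    ∃ x, x < L (idx L n) ∧ n = S L (idx L n) + x := by
  have h1 := S_idx_le L n
  have h2 := lt_S_idx L hL n
  rw [S_succ] at h2
  exact ⟨n - S L (idx L n), by omega, by omega⟩

theorem a_lt_succ (hL : ∀ j, 1 ≤ L j) (hf : ∀ j x, f j x < f j (x + 1))
    (hR : ∀ j x, x < L j → f j x < R j) (n : ℕ) : a L R s f n < a L R s f (n + 1) := by
  obtain ⟨x, hx, hn⟩ := exists_rep L hL n
  set j := idx L n with hj
  rw [hn, a_eq L R s f hL hx]
  rcases Nat.lt_or_ge (x + 1) (L j) with h | h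
  · rw [show S L j + x + 1 = S L j + (x + 1) by ring, a_eq L R s f hL h]
    have : s j * (x + 1) = s j * x + s j := by ring
    have := hf j x
    omega
  · have hx' : x + 1 = L j := by omega
    have h1 : S L j + x + 1 = S L (j + 1) + 0 := by rw [S_succ]; omega
    rw [h1, a_eq L R s f hL (hL (j + 1)), B_succ, ← hx']
    have : s j * (x + 1) = s j * x + s j := by ring
    have := hR j x hx
    omega

/-- the height of the line over the base at the start of window `j` -/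
noncomputable def g (σ τ : ℝ) (j : ℕ) : ℝ := σ * S L j + τ - B L R s j

theorem g_succ (σ τ : ℝ) (j : ℕ) :
    g L R s σ τ (j + 1) = g L R s σ τ j + (σ - s j) * L j - R j := by
  unfold g
  rw [S_succ, B_succ]
  push_cast
  ring

/-- a point of window `j` on the line -/
def Hit (σ τ : ℝ) (j : ℕ) : Prop :=
  ∃ x r : ℕ, x < L j ∧ r < R j ∧ (r : ℝ) = g L R s σ τ j + (σ - s j) * x

theorem point_eq (hL : ∀ j, 1 ≤ L j) {σ τ : ℝ} {n : ℕ} (hn : (a L R s f n : ℝ) = σ * n + τ) :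
    n - S L (idx L n) < L (idx L n) ∧
    (f (idx L n) (n - S L (idx L n)) : ℝ) =
      (σ - s (idx L n)) * ((n - S L (idx L n) : ℕ) : ℝ) + g L R s σ τ (idx L n) := by
  obtain ⟨x, hx, hnx⟩ := exists_rep L hL n
  have hxe : n - S L (idx L n) = x := by omega
  rw [hxe]
  refine ⟨hx, ?_⟩
  have h1 : a L R s f n = B L R s (idx L n) + s (idx L n) * x + f (idx L n) x := by
    conv_lhs => rw [hnx]
    exact a_eq L R s f hL hx
  have h2 : (n : ℝ) = (S L (idx L n) : ℝ) + x := by exact_mod_cast hnx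
  rw [h1, h2] at hn
  push_cast at hn ⊢
  unfold g
  linarith

theorem hit_of_point (hL : ∀ j, 1 ≤ L j) (hR : ∀ j x, x < L j → f j x < R j)
    {σ τ : ℝ} {n : ℕ} (hn : (a L R s f n : ℝ) = σ * n + τ) : Hit L R s σ τ (idx L n) := by
  obtain ⟨h1, h2⟩ := point_eq L R s f hL hn
  exact ⟨_, _, h1, hR _ _ h1, by rw [h2]; ring⟩

theorem s_mono {Q : ℕ → ℕ} (hs : ∀ j, s j + 2 * Q (j + 1) ≤ s (j + 1)) : Monotone s :=
  monotone_nat_of_le_succ (fun j => by have := hs j; omega)

/-- a window before another hit window has slope less than `σ` -/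
theorem slope_lt (hsm : Monotone s) {σ τ : ℝ} {j j' : ℕ} (hjj : j < j') (h : Hit L R s σ τ j)
    (h' : Hit L R s σ τ j') : (s j : ℝ) < σ := by
  by_contra hcon
  push Not at hcon
  obtain ⟨x, r, hx, hr, e⟩ := h
  obtain ⟨x', r', hx', hr', e'⟩ := h'
  have hslope : ∀ i, j ≤ i → σ - s i ≤ 0 := by
    intro i hi
    have : (s j : ℝ) ≤ s i := by exact_mod_cast hsm hi
    linarith
  have h0 : g L R s σ τ (j + 1) < 0 := by
    rw [g_succ]
    have h1 := hslope j le_rfl
    have h2 : (x : ℝ) ≤ L j := by exact_mod_cast hx.le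
    have h3 : (σ - s j) * L j ≤ (σ - s j) * x := mul_le_mul_of_nonpos_left h2 h1
    have h4 : (r : ℝ) < R j := by exact_mod_cast hr
    linarith
  have h1 : ∀ i, j + 1 ≤ i → g L R s σ τ i < 0 := by
    intro i hi
    induction i, hi using Nat.le_induction with
    | base => exact h0
    | succ i hi ih =>
      rw [g_succ]
      have h3 := hslope i (by omega)
      have h5 : (σ - s i) * L i ≤ 0 := mul_nonpos_of_nonpos_of_nonneg h3 (Nat.cast_nonneg _)
      have h6 : (0 : ℝ) ≤ R i := Nat.cast_nonneg _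
      linarith
  have h2 := h1 j' (by omega)
  have h3 : (σ - s j') * x' ≤ 0 :=
    mul_nonpos_of_nonpos_of_nonneg (hslope j' hjj.le) (Nat.cast_nonneg x')
  have h4 : (0 : ℝ) ≤ r' := Nat.cast_nonneg r'
  linarith

/-- a window two or more after a hit window has slope at least `σ` -/
theorem slope_ge (hsm : Monotone s) {Q : ℕ → ℕ}
    (hQL : ∀ j, R j + R (j + 1) + R (j + 2) ≤ Q (j + 2) * L (j + 1))
    (hs : ∀ j, s j + 2 * Q (j + 1) ≤ s (j + 1)) {σ τ : ℝ} {j j' : ℕ} (hjj : j + 2 ≤ j')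
    (h : Hit L R s σ τ j) (h' : Hit L R s σ τ j') : σ ≤ (s j' : ℝ) := by
  by_contra hcon
  push Not at hcon
  obtain ⟨x, r, hx, hr, e⟩ := h
  obtain ⟨x', r', hx', hr', e'⟩ := h'
  have hslope : ∀ i, i ≤ j' → 0 ≤ σ - s i := by
    intro i hi
    have : (s i : ℝ) ≤ s j' := by exact_mod_cast hsm hi
    linarith
  have hstep : ∀ i, j + 1 ≤ i → i + 1 ≤ j' →
      2 * ((R (i - 1) : ℝ) + R i + R (i + 1)) ≤ (σ - s i) * L i := by
    intro i hi hij
    obtain ⟨k, rfl⟩ : ∃ k, i = k + 1 := ⟨i - 1, by omega⟩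
    have h1 := hQL k
    have h2 := hs (k + 1)
    have h3 : (s (k + 1 + 1) : ℝ) ≤ s j' := by exact_mod_cast hsm hij
    have h4 : (s (k + 1) : ℝ) + 2 * Q (k + 1 + 1) ≤ s (k + 1 + 1) := by exact_mod_cast h2
    have h5 : 2 * (Q (k + 1 + 1) : ℝ) ≤ σ - s (k + 1) := by linarith
    have h6 : ((R k : ℝ) + R (k + 1) + R (k + 2)) ≤ Q (k + 2) * L (k + 1) := by exact_mod_cast h1
    have h7 : 2 * (Q (k + 1 + 1) : ℝ) * L (k + 1) ≤ (σ - s (k + 1)) * L (k + 1) :=
      mul_le_mul_of_nonneg_right h5 (Nat.cast_nonneg _)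
    have h8 : k + 1 - 1 = k := by omega
    have h9 : k + 1 + 1 = k + 2 := by omega
    rw [h8, h9]
    rw [h9] at h7
    linarith
  have h0 : -(R j : ℝ) ≤ g L R s σ τ (j + 1) := by
    rw [g_succ]
    have h1 := hslope j (by omega)
    have h2 : (x : ℝ) ≤ L j := by exact_mod_cast hx.le
    have h3 : (σ - s j) * x ≤ (σ - s j) * L j := mul_le_mul_of_nonneg_left h2 h1
    have h4 : (0 : ℝ) ≤ r := Nat.cast_nonneg _
    linarith
  have h1 : ∀ i, j + 1 ≤ i → i ≤ j' → -(R (i - 1) : ℝ) ≤ g L R s σ τ i := by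
    intro i hi
    induction i, hi using Nat.le_induction with
    | base => intro _; simpa using h0
    | succ i hi ih =>
      intro hij
      have h2 := ih (by omega)
      have h3 := hstep i hi hij
      rw [g_succ, Nat.add_sub_cancel]
      have h4 : (0 : ℝ) ≤ R (i - 1) := Nat.cast_nonneg _
      have h5 : (0 : ℝ) ≤ R i := Nat.cast_nonneg _
      have h6 : (0 : ℝ) ≤ R (i + 1) := Nat.cast_nonneg _
      linarith
  obtain ⟨i, rfl⟩ : ∃ i, j' = i + 1 := ⟨j' - 1, by omega⟩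
  have h2 := h1 i (by omega) (by omega)
  have h3 := hstep i (by omega) le_rfl
  have h4 : (0 : ℝ) ≤ R (i - 1) := Nat.cast_nonneg _
  have h5 : (0 : ℝ) ≤ R i := Nat.cast_nonneg _
  have h6 : (0 : ℝ) ≤ R (i + 1) := Nat.cast_nonneg _
  have h7 : (R (i + 1) : ℝ) ≤ g L R s σ τ (i + 1) := by
    rw [g_succ]
    linarith
  have h8 : 0 ≤ (σ - s (i + 1)) * x' :=
    mul_nonneg (hslope (i + 1) le_rfl) (Nat.cast_nonneg x')
  have h9 : (r' : ℝ) < R (i + 1) := by exact_mod_cast hr'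
  linarith

theorem windows_card (hsm : Monotone s) {Q : ℕ → ℕ}
    (hQL : ∀ j, R j + R (j + 1) + R (j + 2) ≤ Q (j + 2) * L (j + 1))
    (hs : ∀ j, s j + 2 * Q (j + 1) ≤ s (j + 1)) (σ τ : ℝ) (W : Finset ℕ)
    (hW : ∀ j ∈ W, Hit L R s σ τ j) : W.card ≤ 3 := by
  by_contra hcon
  push Not at hcon
  obtain ⟨t, htW, ht⟩ := Finset.exists_subset_card_eq (show 4 ≤ W.card from hcon)
  let w := t.orderEmbOfFin ht
  have hw : ∀ i, Hit L R s σ τ (w i) := fun i => hW _ (htW (Finset.orderEmbOfFin_mem t ht i))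
  have h01 : w 0 < w 1 := w.strictMono (by decide)
  have h12 : w 1 < w 2 := w.strictMono (by decide)
  have h23 : w 2 < w 3 := w.strictMono (by decide)
  have h1 := slope_lt L R s hsm h23 (hw 2) (hw 3)
  have h2 := slope_ge L R s hsm hQL hs (show w 0 + 2 ≤ w 2 by omega) (hw 0) (hw 2)
  linarith

end Glue

open Glue in
/-- the glue, with the constant 3 -/
theorem glue3 (L R s : ℕ → ℕ) (f : ℕ → ℕ → ℕ) (K : ℕ) (hL : ∀ j, 1 ≤ L j)
    (hf : ∀ j x, f j x < f j (x + 1)) (hR : ∀ j x, x < L j → f j x < R j)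
    (hline : ∀ j (σ τ : ℝ) (T : Finset ℕ), (∀ x ∈ T, x < L j) →
      (∀ x ∈ T, (f j x : ℝ) = σ * x + τ) → T.card ≤ K)
    (Q : ℕ → ℕ)
    (hQL : ∀ j, R j + R (j + 1) + R (j + 2) ≤ Q (j + 2) * L (j + 1))
    (hs : ∀ j, s j + 2 * Q (j + 1) ≤ s (j + 1)) :
    ∃ a : ℕ → ℕ, StrictMono a ∧
      (∀ j x, x < L j → a ((∑ i ∈ range j, L i) + x) =
        (∑ i ∈ range j, (s i * L i + R i)) + s j * x + f j x) ∧
      ∀ σ τ : ℝ, ∀ T : Finset ℕ, (∀ n ∈ T, (a n : ℝ) = σ * n + τ) → T.card ≤ 3 * K := by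
  classical
  refine ⟨a L R s f, strictMono_nat_of_lt_succ (a_lt_succ L R s f hL hf hR),
    fun j x hx => a_eq L R s f hL hx, ?_⟩
  intro σ τ T hT
  have hsm := s_mono s hs
  let W := T.image (idx L)
  have hW : W.card ≤ 3 := by
    apply windows_card L R s hsm hQL hs σ τ W
    intro j hj
    obtain ⟨n, hn, rfl⟩ := Finset.mem_image.1 hj
    exact hit_of_point L R s f hL hR (hT n hn)
  have hfib : ∀ j ∈ W, (T.filter (fun n => idx L n = j)).card ≤ K := by
    intro j _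
    have hinj : Set.InjOn (fun n => n - S L j) (T.filter (fun n => idx L n = j) : Set ℕ) := by
      intro n hn n' hn' h
      have h1 := (Finset.mem_filter.1 (Finset.mem_coe.1 hn)).2
      have h2 := (Finset.mem_filter.1 (Finset.mem_coe.1 hn')).2
      have h3 := S_idx_le L n
      have h4 := S_idx_le L n'
      rw [h1] at h3
      rw [h2] at h4
      simp only at h
      omega
    rw [← Finset.card_image_of_injOn hinj]
    apply hline j (σ - s j) (g L R s σ τ j)
    · intro x hx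
      obtain ⟨n, hn, rfl⟩ := Finset.mem_image.1 hx
      have h1 := Finset.mem_filter.1 hn
      have h2 := (point_eq L R s f hL (hT n h1.1)).1
      rw [h1.2] at h2
      exact h2
    · intro x hx
      obtain ⟨n, hn, rfl⟩ := Finset.mem_image.1 hx
      have h1 := Finset.mem_filter.1 hn
      have h2 := (point_eq L R s f hL (hT n h1.1)).2
      rw [h1.2] at h2
      exact h2
  have h1 : T.card ≤ W.card * K := by
    have h2 := Finset.card_eq_sum_card_image (idx L) T
    rw [h2]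
    calc ∑ b ∈ T.image (idx L), (T.filter (fun n => idx L n = b)).card
        ≤ ∑ b ∈ T.image (idx L), K := Finset.sum_le_sum hfib
      _ = W.card * K := by rw [Finset.sum_const, smul_eq_mul]
  exact h1.trans (Nat.mul_le_mul_right K hW)

-- M6 glue
theorem glue (L R s : ℕ → ℕ) (f : ℕ → ℕ → ℕ) (K : ℕ) (hL : ∀ j, 1 ≤ L j)
    (hf : ∀ j x, f j x < f j (x + 1)) (hR : ∀ j x, x < L j → f j x < R j)
    (hline : ∀ j (σ τ : ℝ) (T : Finset ℕ), (∀ x ∈ T, x < L j) →
      (∀ x ∈ T, (f j x : ℝ) = σ * x + τ) → T.card ≤ K)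
    (Q : ℕ → ℕ) (_hQ : ∀ j, Q j ≤ Q (j + 1))
    (hQL : ∀ j, R j + R (j + 1) + R (j + 2) ≤ Q (j + 2) * L (j + 1))
    (hs : ∀ j, s j + 2 * Q (j + 1) ≤ s (j + 1)) :
    ∃ a : ℕ → ℕ, StrictMono a ∧
      (∀ j x, x < L j → a ((∑ i ∈ range j, L i) + x) =
        (∑ i ∈ range j, (s i * L i + R i)) + s j * x + f j x) ∧
      ∀ σ τ : ℝ, ∀ T : Finset ℕ, (∀ n ∈ T, (a n : ℝ) = σ * n + τ) → T.card ≤ 4 * K := by
  obtain ⟨a, h1, h2, h3⟩ := glue3 L R s f K hL hf hR hline Q hQL hs
  exact ⟨a, h1, h2, fun σ τ T hT => (h3 σ τ T hT).trans (by omega)⟩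

end Pool.Agent.H58Slow
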