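import Pool.Agent.H58Slow.Fin5
import Pool.Agent.H58Slow.Glue

set_option autoImplicit false

namespace Pool.Agent.H58Slow

open Finset

/-- the parameter of window `j` -/
def Mw (m j : ℕ) : ℕ := (j + 1) * 2 ^ (j / m + 1)
def Rw (m j : ℕ) : ℕ := Mw m j * ((j + 1) * 2 ^ j) + 1
def Qw (m j : ℕ) : ℕ := 15 * (j + 1) ^ 2 * 2 ^ (j / m)
def sw (m j : ℕ) : ℕ := ∑ i ∈ range (j + 1), 2 * Qw m i

theorem lt_mul_div {m : ℕ} (hm : 1 ≤ m) (j : ℕ) : j + 1 ≤ (j / m + 1) * m := by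
  have h1 := Nat.div_add_mod j m
  have h2 := Nat.mod_lt j (show m > 0 from hm)
  have h3 : (j / m + 1) * m = m * (j / m) + m := by ring
  omega

theorem param_ok {m : ℕ} (hm : 1 ≤ m) (j : ℕ) :
    ((2 : ℝ) ^ j + 1) ^ 2 * ((j : ℝ) + 1) ^ (2 * m + 1) < (Mw m j : ℝ) ^ (2 * m + 1) := by
  have h1 := lt_mul_div hm j
  have h2 : (Mw m j : ℝ) ^ (2 * m + 1)
      = (2 : ℝ) ^ ((j / m + 1) * (2 * m + 1)) * ((j : ℝ) + 1) ^ (2 * m + 1) := by
    unfold Mw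
    push_cast
    rw [mul_pow, ← pow_mul]
    ring
  rw [h2]
  have h3 : (0 : ℝ) < ((j : ℝ) + 1) ^ (2 * m + 1) := by positivity
  refine mul_lt_mul_of_pos_right ?_ h3
  have h4 : (1 : ℝ) ≤ 2 ^ j := one_le_pow₀ (by norm_num)
  calc ((2 : ℝ) ^ j + 1) ^ 2 ≤ (2 ^ j + 2 ^ j) ^ 2 := by gcongr
    _ = 2 ^ (2 * j + 2) := by ring
    _ < 2 ^ ((j / m + 1) * (2 * m + 1)) := by
        refine pow_lt_pow_right₀ (by norm_num) ?_
        have h5 : (j / m + 1) * (2 * m + 1) = 2 * ((j / m + 1) * m) + (j / m + 1) := by ring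
        have h6 : 1 ≤ j / m + 1 := Nat.succ_le_succ (Nat.zero_le _)
        rw [h5]
        linarith

theorem P_succ (J : ℕ → ℕ) (x : ℕ) : P J (x + 1) = P J x + (J x + 1) := by
  simp [P, sum_range_succ]

theorem P_le {M j : ℕ} {J : ℕ → ℕ} (hJ : ∀ x, J x < M * 2 ^ padicValNat 2 (x + 1)) {x : ℕ}
    (hx : x ≤ 2 ^ j) : P J x ≤ M * ((j + 1) * 2 ^ j) := by
  calc P J x ≤ ∑ y ∈ range x, M * 2 ^ padicValNat 2 (y + 1) := by
        unfold P
        exact sum_le_sum (fun y _ => hJ y)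
    _ ≤ ∑ y ∈ range (2 ^ j), M * 2 ^ padicValNat 2 (y + 1) :=
        sum_le_sum_of_subset (range_mono hx)
    _ = M * ∑ y ∈ range (2 ^ j), 2 ^ padicValNat 2 (y + 1) := by rw [mul_sum]
    _ ≤ M * ((j + 1) * 2 ^ j) := Nat.mul_le_mul_left _ (sum_val j)

theorem Mw_mono {m j j' : ℕ} (h : j ≤ j') : Mw m j ≤ Mw m j' := by
  unfold Mw
  have h1 : j / m ≤ j' / m := Nat.div_le_div_right h
  exact Nat.mul_le_mul (by omega) (Nat.pow_le_pow_right (by norm_num) (by omega))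

theorem Rw_mono {m j j' : ℕ} (h : j ≤ j') : Rw m j ≤ Rw m j' := by
  unfold Rw
  have h1 := Mw_mono (m := m) h
  have h2 : (j + 1) * 2 ^ j ≤ (j' + 1) * 2 ^ j' :=
    Nat.mul_le_mul (by omega) (Nat.pow_le_pow_right (by norm_num) h)
  have := Nat.mul_le_mul h1 h2
  omega

theorem Qw_mono {m j j' : ℕ} (h : j ≤ j') : Qw m j ≤ Qw m j' := by
  unfold Qw
  have h1 : j / m ≤ j' / m := Nat.div_le_div_right h
  exact Nat.mul_le_mul (Nat.mul_le_mul_left _ (Nat.pow_le_pow_left (by omega) 2))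
    (Nat.pow_le_pow_right (by norm_num) h1)

theorem RQ (m j : ℕ) : Rw m j + Rw m (j + 1) + Rw m (j + 2) ≤ Qw m (j + 2) * 2 ^ (j + 1) := by
  have h1 := Rw_mono (m := m) (show j ≤ j + 2 by omega)
  have h2 := Rw_mono (m := m) (show j + 1 ≤ j + 2 by omega)
  have h3 : Rw m (j + 2) = 4 * ((j + 3) ^ 2 * 2 ^ ((j + 2) / m) * 2 ^ (j + 1)) + 1 := by
    unfold Rw Mw
    rw [pow_succ 2 ((j + 2) / m), pow_succ 2 (j + 1)]
    ring
  have h4 : Qw m (j + 2) * 2 ^ (j + 1) = 15 * ((j + 3) ^ 2 * 2 ^ ((j + 2) / m) * 2 ^ (j + 1)) := by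
    unfold Qw
    ring
  have h5 : 1 ≤ (j + 3) ^ 2 * 2 ^ ((j + 2) / m) * 2 ^ (j + 1) :=
    Nat.succ_le_of_lt (by positivity)
  omega

theorem sw_succ (m j : ℕ) : sw m (j + 1) = sw m j + 2 * Qw m (j + 1) := by
  unfold sw
  rw [sum_range_succ]

theorem sw_le {m i j : ℕ} (h : i ≤ j) : sw m i ≤ 30 * ((j + 1) ^ 3 * 2 ^ (j / m)) := by
  unfold sw
  calc ∑ t ∈ range (i + 1), 2 * Qw m t ≤ ∑ t ∈ range (i + 1), 2 * Qw m j :=
        sum_le_sum (fun t ht => Nat.mul_le_mul_left _ (Qw_mono (by rw [mem_range] at ht; omega)))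
    _ = (i + 1) * (2 * Qw m j) := by rw [sum_const, card_range, smul_eq_mul]
    _ ≤ (j + 1) * (2 * Qw m j) := Nat.mul_le_mul_right _ (by omega)
    _ = 30 * ((j + 1) ^ 3 * 2 ^ (j / m)) := by
        unfold Qw
        ring

theorem piece_le {m i j : ℕ} (h : i ≤ j) :
    sw m i * 2 ^ i + Rw m i ≤ 33 * ((j + 1) ^ 3 * 2 ^ (j / m)) * 2 ^ i := by
  have h1 : sw m i * 2 ^ i ≤ 30 * ((j + 1) ^ 3 * 2 ^ (j / m)) * 2 ^ i :=
    Nat.mul_le_mul_right _ (sw_le h)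
  have h2 : Mw m i * ((i + 1) * 2 ^ i) ≤ 2 * ((j + 1) ^ 3 * 2 ^ (j / m)) * 2 ^ i := by
    have h3 := Mw_mono (m := m) h
    calc Mw m i * ((i + 1) * 2 ^ i) ≤ Mw m j * ((j + 1) * 2 ^ i) :=
          Nat.mul_le_mul h3 (Nat.mul_le_mul_right _ (by omega))
      _ = 2 * ((j + 1) ^ 2 * 2 ^ (j / m)) * 2 ^ i := by
          unfold Mw
          rw [pow_succ 2 (j / m)]
          ring
      _ ≤ 2 * ((j + 1) ^ 3 * 2 ^ (j / m)) * 2 ^ i := by
          refine Nat.mul_le_mul_right _ (Nat.mul_le_mul_left _ (Nat.mul_le_mul_right _ ?_))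
          exact Nat.pow_le_pow_right (by omega) (by norm_num)
  have h4 : 1 ≤ (j + 1) ^ 3 * 2 ^ (j / m) * 2 ^ i := Nat.succ_le_of_lt (by positivity)
  have e1 : 33 * ((j + 1) ^ 3 * 2 ^ (j / m)) * 2 ^ i
      = 33 * ((j + 1) ^ 3 * 2 ^ (j / m) * 2 ^ i) := by ring
  have e2 : 30 * ((j + 1) ^ 3 * 2 ^ (j / m)) * 2 ^ i
      = 30 * ((j + 1) ^ 3 * 2 ^ (j / m) * 2 ^ i) := by ring
  have e3 : 2 * ((j + 1) ^ 3 * 2 ^ (j / m)) * 2 ^ i
      = 2 * ((j + 1) ^ 3 * 2 ^ (j / m) * 2 ^ i) := by ring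
  rw [e1]
  rw [e2] at h1
  rw [e3] at h2
  unfold Rw
  omega

theorem sum_two_pow (j : ℕ) : (∑ i ∈ range j, 2 ^ i) + 1 = 2 ^ j := by
  induction j with
  | zero => simp
  | succ j ih =>
    rw [sum_range_succ, pow_succ]
    omega

theorem main (m : ℕ) (hm : 1 ≤ m) :
    ∃ a : ℕ → ℕ, StrictMono a ∧ (∀ n, a n ^ m ≤ (66 * (Nat.log 2 (n + 1) + 1) ^ 3) ^ m *
        (n + 1) ^ (m + 1)) ∧
      (∀ n, a n ^ m ≤ (66 * m ^ 3) ^ m * (n + 1) ^ (m + 4)) ∧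
      ∀ σ τ : ℝ, ∀ T : Finset ℕ, (∀ n ∈ T, (a n : ℝ) = σ * n + τ) → T.card ≤ 6 * m + 6 := by
  have hMpos : ∀ j, 1 ≤ Mw m j := fun j => by
    unfold Mw
    exact Nat.succ_le_of_lt (by positivity)
  choose J hJ1 hJ2 using fun j => finite_exists j (Mw m j) (2 * m + 1) (hMpos j) (param_ok hm j)
  have hline : ∀ j (σ τ : ℝ) (T : Finset ℕ), (∀ x ∈ T, x < 2 ^ j) →
      (∀ x ∈ T, (P (J j) x : ℝ) = σ * x + τ) → T.card ≤ 2 * m + 2 := by
    intro j σ τ T hT hl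
    by_contra hcon
    push Not at hcon
    obtain ⟨n, e, d, h1, h2, h3, h4⟩ := chain_of_line (K := 2 * m + 1) (fun x hx => (hT x hx).le) hl
      (by omega)
    exact hJ2 j n e d h1 h2 h3 h4
  obtain ⟨a, ha1, ha2, ha3⟩ := glue3 (fun j => 2 ^ j) (Rw m) (sw m) (fun j => P (J j)) (2 * m + 2)
    (fun j => Nat.one_le_two_pow) (fun j x => by rw [P_succ]; omega)
    (fun j x hx => Nat.lt_succ_of_le (P_le (hJ1 j) hx.le)) hline (Qw m)
    (fun j => RQ m j) (fun j => (sw_succ m j).ge)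
  have key : ∀ n, a n ^ m ≤ (66 * (Nat.log 2 (n + 1) + 1) ^ 3) ^ m * (n + 1) ^ (m + 1) ∧
      a n ^ m ≤ (66 * m ^ 3) ^ m * (n + 1) ^ (m + 4) := by
    intro n
    obtain ⟨x, hx, hn⟩ := Glue.exists_rep (fun j => 2 ^ j) (fun j => Nat.one_le_two_pow) n
    set j := Glue.idx (fun j => 2 ^ j) n with hj
    have hS : Glue.S (fun j => 2 ^ j) j + 1 = 2 ^ j := sum_two_pow j
    have h1 : a n = (∑ i ∈ range j, (sw m i * 2 ^ i + Rw m i)) + sw m j * x + P (J j) x := by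
      conv_lhs => rw [hn]
      exact ha2 j x hx
    have h2 : a n ≤ ∑ i ∈ range (j + 1), (sw m i * 2 ^ i + Rw m i) := by
      rw [h1, sum_range_succ]
      have h3 : sw m j * x ≤ sw m j * 2 ^ j := Nat.mul_le_mul_left _ hx.le
      have h4 := P_le (hJ1 j) hx.le
      unfold Rw
      omega
    have h3 : a n ≤ 66 * ((j + 1) ^ 3 * 2 ^ (j / m)) * 2 ^ j := by
      calc a n ≤ ∑ i ∈ range (j + 1), 33 * ((j + 1) ^ 3 * 2 ^ (j / m)) * 2 ^ i :=
            h2.trans (sum_le_sum (fun i hi => piece_le (by rw [mem_range] at hi; omega)))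
        _ = 33 * ((j + 1) ^ 3 * 2 ^ (j / m)) * ∑ i ∈ range (j + 1), 2 ^ i := by rw [mul_sum]
        _ ≤ 33 * ((j + 1) ^ 3 * 2 ^ (j / m)) * 2 ^ (j + 1) := by
            refine Nat.mul_le_mul_left _ ?_
            have := sum_two_pow (j + 1)
            omega
        _ = 66 * ((j + 1) ^ 3 * 2 ^ (j / m)) * 2 ^ j := by ring
    have h7 : 2 ^ j ≤ n + 1 := by omega
    have h4 : j ≤ Nat.log 2 (n + 1) := Nat.le_log_of_pow_le (by norm_num) h7
    have h5 : a n ≤ 66 * (Nat.log 2 (n + 1) + 1) ^ 3 * (2 ^ (j / m) * 2 ^ j) := by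
      calc a n ≤ 66 * ((j + 1) ^ 3 * 2 ^ (j / m)) * 2 ^ j := h3
        _ ≤ 66 * ((Nat.log 2 (n + 1) + 1) ^ 3 * 2 ^ (j / m)) * 2 ^ j := by
            refine Nat.mul_le_mul_right _ (Nat.mul_le_mul_left _ (Nat.mul_le_mul_right _ ?_))
            exact Nat.pow_le_pow_left (by omega) 3
        _ = 66 * (Nat.log 2 (n + 1) + 1) ^ 3 * (2 ^ (j / m) * 2 ^ j) := by ring
    have h6 : (2 ^ (j / m)) ^ m ≤ 2 ^ j := by
      rw [← pow_mul]
      exact Nat.pow_le_pow_right (by norm_num) (Nat.div_mul_le_self j m)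
    refine ⟨?_, ?_⟩
    · calc a n ^ m ≤ (66 * (Nat.log 2 (n + 1) + 1) ^ 3 * (2 ^ (j / m) * 2 ^ j)) ^ m :=
            Nat.pow_le_pow_left h5 m
        _ = (66 * (Nat.log 2 (n + 1) + 1) ^ 3) ^ m * ((2 ^ (j / m)) ^ m * (2 ^ j) ^ m) := by
            rw [mul_pow, mul_pow (2 ^ (j / m))]
        _ ≤ (66 * (Nat.log 2 (n + 1) + 1) ^ 3) ^ m * (2 ^ j * (2 ^ j) ^ m) :=
            Nat.mul_le_mul_left _ (Nat.mul_le_mul_right _ h6)
        _ = (66 * (Nat.log 2 (n + 1) + 1) ^ 3) ^ m * (2 ^ j) ^ (m + 1) := by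
            rw [pow_succ (2 ^ j) m, mul_comm (2 ^ j) ((2 ^ j) ^ m)]
        _ ≤ (66 * (Nat.log 2 (n + 1) + 1) ^ 3) ^ m * (n + 1) ^ (m + 1) :=
            Nat.mul_le_mul_left _ (Nat.pow_le_pow_left h7 _)
    · have g4 : j + 1 ≤ m * 2 ^ (j / m) := by
        have h5 := lt_mul_div hm j
        have h6 : j / m + 1 ≤ 2 ^ (j / m) := Nat.lt_two_pow_self
        calc j + 1 ≤ (j / m + 1) * m := h5
          _ ≤ 2 ^ (j / m) * m := Nat.mul_le_mul_right _ h6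
          _ = m * 2 ^ (j / m) := by ring
      have g5 : a n ≤ 66 * m ^ 3 * ((2 ^ (j / m)) ^ 4 * 2 ^ j) := by
        calc a n ≤ 66 * ((j + 1) ^ 3 * 2 ^ (j / m)) * 2 ^ j := h3
          _ ≤ 66 * ((m * 2 ^ (j / m)) ^ 3 * 2 ^ (j / m)) * 2 ^ j := by
              refine Nat.mul_le_mul_right _ (Nat.mul_le_mul_left _ (Nat.mul_le_mul_right _ ?_))
              exact Nat.pow_le_pow_left g4 3
          _ = 66 * m ^ 3 * ((2 ^ (j / m)) ^ 4 * 2 ^ j) := by ring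
      calc a n ^ m ≤ (66 * m ^ 3 * ((2 ^ (j / m)) ^ 4 * 2 ^ j)) ^ m := Nat.pow_le_pow_left g5 m
        _ = (66 * m ^ 3) ^ m * (((2 ^ (j / m)) ^ m) ^ 4 * (2 ^ j) ^ m) := by
            rw [mul_pow (66 * m ^ 3), mul_pow ((2 ^ (j / m)) ^ 4), ← pow_mul (2 ^ (j / m)) 4 m,
              mul_comm 4 m, pow_mul (2 ^ (j / m)) m 4]
        _ ≤ (66 * m ^ 3) ^ m * ((2 ^ j) ^ 4 * (2 ^ j) ^ m) := by
            refine Nat.mul_le_mul_left _ (Nat.mul_le_mul_right _ ?_)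
            exact Nat.pow_le_pow_left h6 4
        _ = (66 * m ^ 3) ^ m * (2 ^ j) ^ (m + 4) := by
            rw [← pow_add, add_comm 4 m]
        _ ≤ (66 * m ^ 3) ^ m * (n + 1) ^ (m + 4) :=
            Nat.mul_le_mul_left _ (Nat.pow_le_pow_left h7 _)
  refine ⟨a, ha1, fun n => (key n).1, fun n => (key n).2, ?_⟩
  · intro σ τ T hT
    have := ha3 σ τ T hT
    omega

theorem not_summable {a : ℕ → ℕ} {m C : ℕ} {θ : ℝ} (hm : 1 ≤ m) (h0 : 0 ≤ θ)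
    (h1 : θ ≤ 1) (hθ : θ * ((m : ℝ) + 4) ≤ m) (hC : 1 ≤ C)
    (hb : ∀ n, a n ^ m ≤ C ^ m * (n + 1) ^ (m + 4)) (hpos : ∀ n, 1 ≤ n → 0 < a n) :
    ¬ Summable (fun n : ℕ => 1 / (a (n + 1) : ℝ) ^ θ) := by
  intro hs
  have hCR : (1 : ℝ) ≤ C := by exact_mod_cast hC
  have hle : ∀ n : ℕ, (a (n + 1) : ℝ) ^ θ ≤ C * ((n : ℝ) + 2) := by
    intro n
    have hy : (0 : ℝ) ≤ a (n + 1) := Nat.cast_nonneg _
    have hx : (1 : ℝ) ≤ (n : ℝ) + 2 := by
      have : (0 : ℝ) ≤ n := Nat.cast_nonneg n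
      linarith
    have e1 : (a (n + 1) : ℝ) ^ m ≤ (C : ℝ) ^ m * ((n : ℝ) + 2) ^ (m + 4) := by
      have h2 : ((a (n + 1) ^ m : ℕ) : ℝ) ≤ ((C ^ m * (n + 1 + 1) ^ (m + 4) : ℕ) : ℝ) := by
        exact_mod_cast hb (n + 1)
      push_cast at h2
      rwa [show (n : ℝ) + 1 + 1 = (n : ℝ) + 2 by ring] at h2
    have e2 : ((a (n + 1) : ℝ) ^ θ) ^ m ≤ (C * ((n : ℝ) + 2)) ^ m := by
      calc ((a (n + 1) : ℝ) ^ θ) ^ m = ((a (n + 1) : ℝ) ^ m) ^ θ := by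
            rw [← Real.rpow_natCast, ← Real.rpow_mul hy, mul_comm θ, Real.rpow_mul hy,
              Real.rpow_natCast]
        _ ≤ ((C : ℝ) ^ m * ((n : ℝ) + 2) ^ (m + 4)) ^ θ :=
            Real.rpow_le_rpow (by positivity) e1 h0
        _ = ((C : ℝ) ^ m) ^ θ * (((n : ℝ) + 2) ^ (m + 4)) ^ θ :=
            Real.mul_rpow (by positivity) (by positivity)
        _ ≤ (C : ℝ) ^ m * ((n : ℝ) + 2) ^ m := by
            refine mul_le_mul ?_ ?_ (by positivity) (by positivity)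
            · calc ((C : ℝ) ^ m) ^ θ ≤ ((C : ℝ) ^ m) ^ (1 : ℝ) :=
                    Real.rpow_le_rpow_of_exponent_le (one_le_pow₀ hCR) h1
                _ = (C : ℝ) ^ m := Real.rpow_one _
            · rw [← Real.rpow_natCast, ← Real.rpow_mul (by positivity), ← Real.rpow_natCast]
              refine Real.rpow_le_rpow_of_exponent_le hx ?_
              push_cast
              linarith
        _ = (C * ((n : ℝ) + 2)) ^ m := by rw [mul_pow]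
    exact le_of_pow_le_pow_left₀ (by omega) (by positivity) e2
  have hs2 : Summable (fun n : ℕ => 1 / ((C : ℝ) * ((n : ℝ) + 2))) := by
    refine Summable.of_nonneg_of_le (fun n => by positivity) (fun n => ?_) hs
    have hy : (0 : ℝ) < a (n + 1) := by exact_mod_cast hpos (n + 1) (by omega)
    exact one_div_le_one_div_of_le (Real.rpow_pos_of_pos hy θ) (hle n)
  have hs3 : Summable (fun n : ℕ => 1 / ((n : ℝ) + 2)) := by
    have h3 := hs2.mul_left (C : ℝ)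
    refine h3.congr (fun n => ?_)
    have : (C : ℝ) ≠ 0 := by positivity
    have h4 : (n : ℝ) + 2 ≠ 0 := by positivity
    field_simp
  have hs4 : Summable (fun n : ℕ => 1 / (((n + 2 : ℕ) : ℝ))) := by
    refine hs3.congr (fun n => ?_)
    push_cast
    rfl
  rw [summable_nat_add_iff (f := fun n : ℕ => 1 / (n : ℝ)) 2] at hs4
  exact Real.not_summable_one_div_natCast hs4

/-- Q1 fails with any exponent below 1 in the reciprocal sum. -/
theorem below_one (θ : ℝ) (hθ : θ < 1) :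
    ∃ (a : ℕ → ℕ) (k : ℕ), StrictMono a ∧ (∀ n, 1 ≤ n → 0 < a n) ∧
      ¬ Summable (fun n : ℕ => 1 / (a (n + 1) : ℝ) ^ θ) ∧
      ∀ σ τ : ℝ, ∀ T : Finset ℕ, (∀ n ∈ T, (a n : ℝ) = σ * n + τ) → T.card < k := by
  rcases lt_or_ge θ 0 with hneg | h0
  · obtain ⟨a, h1, _, _, h4⟩ := main 1 le_rfl
    have hpos : ∀ n, 1 ≤ n → 0 < a n := fun n hn => by
      have := h1 (show 0 < n from hn)
      omega
    refine ⟨a, 13, h1, hpos, ?_, fun σ τ T hT => Nat.lt_succ_of_le (h4 σ τ T hT)⟩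
    intro hs
    have h5 : ∀ n : ℕ, (1 : ℝ) ≤ 1 / (a (n + 1) : ℝ) ^ θ := by
      intro n
      have hy : (1 : ℝ) ≤ a (n + 1) := by exact_mod_cast hpos (n + 1) (by omega)
      rw [le_div_iff₀ (Real.rpow_pos_of_pos (by linarith) θ), one_mul]
      exact Real.rpow_le_one_of_one_le_of_nonpos hy hneg.le
    have h6 := hs.tendsto_atTop_zero
    have h7 := ge_of_tendsto' h6 h5
    linarith
  · obtain ⟨m, hm⟩ := exists_nat_ge (4 / (1 - θ))
    have h1θ : 0 < 1 - θ := by linarith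
    have hm1 : 1 ≤ m := by
      rcases Nat.eq_zero_or_pos m with h | h
      · exfalso
        rw [h, Nat.cast_zero] at hm
        have : 0 < 4 / (1 - θ) := by positivity
        linarith
      · exact h
    obtain ⟨a, h1, _, h3, h4⟩ := main m hm1
    have hpos : ∀ n, 1 ≤ n → 0 < a n := fun n hn => by
      have := h1 (show 0 < n from hn)
      omega
    refine ⟨a, 6 * m + 7, h1, hpos, ?_, fun σ τ T hT => Nat.lt_succ_of_le (h4 σ τ T hT)⟩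
    refine not_summable (C := 66 * m ^ 3) hm1 h0 hθ.le ?_ ?_ h3 hpos
    · rw [div_le_iff₀ h1θ] at hm
      nlinarith
    · have : 1 ≤ m ^ 3 := Nat.one_le_pow _ _ hm1
      omega

end Pool.Agent.H58Slow
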