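import Pool.Agent.H58Slow.Basic
set_option autoImplicit false
namespace Pool.Agent.H58Slow
open Finset

theorem card_inj {N : ℕ} (c : Fin N → ℕ) (X : Finset (Fin N)) (Bd : Finset (Fin N → ℕ))
    (hB : ∀ J ∈ Bd, ∀ x, J x < c x)
    (hdet : ∀ J ∈ Bd, ∀ J' ∈ Bd, (∀ x, x ∉ X → J x = J' x) → J = J') :
    Bd.card * ∏ x ∈ X, c x ≤ ∏ x, c x := by
  classical
  have h1 : Bd.card ≤ (Fintype.piFinset
      (fun x => if x ∈ X then ({0} : Finset ℕ) else range (c x))).card := by
    refine card_le_card_of_injOn (fun J x => if x ∈ X then 0 else J x) ?_ ?_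
    · intro J hJ
      rw [mem_coe, Fintype.mem_piFinset]
      intro x
      by_cases hx : x ∈ X
      · simp [hx]
      · simp [hx, hB J hJ x]
    · intro J hJ J' hJ' hh
      refine hdet J hJ J' hJ' (fun x hx => ?_)
      have := congrFun hh x
      simpa [hx] using this
  have h2 : (Fintype.piFinset
      (fun x => if x ∈ X then ({0} : Finset ℕ) else range (c x))).card
      = ∏ x, (if x ∈ X then 1 else c x) := by
    rw [Fintype.card_piFinset]
    refine prod_congr rfl (fun x _ => ?_)
    split <;> simp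
  have h3 : ∏ x, c x = (∏ x ∈ X, c x) * ∏ x, (if x ∈ X then 1 else c x) := by
    have h4 : ∏ x ∈ X, c x = ∏ x, (if x ∈ X then c x else 1) := by
      rw [Finset.prod_ite_mem, univ_inter]
    rw [h4, ← prod_mul_distrib]
    refine prod_congr rfl (fun x _ => ?_)
    split <;> simp
  rw [h3, mul_comm, ← h2]
  exact Nat.mul_le_mul_left _ h1

end Pool.Agent.H58Slow
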