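import Pool.Agent.H58Slow.Basic
set_option autoImplicit false
namespace Pool.Agent.H58Slow
open Finset

theorem exists_val (n d : ℕ) (hd : 1 ≤ d) :
    ∃ x, n ≤ x ∧ x < n + d ∧ Nat.log 2 d ≤ padicValNat 2 (x + 1) := by
  have h1 : 2 ^ Nat.log 2 d ≤ d := Nat.pow_log_le_self 2 (by omega)
  obtain ⟨k, hk⟩ : ∃ k, k = Nat.log 2 d := ⟨_, rfl⟩
  rw [← hk] at h1 ⊢
  have h2 : 0 < 2 ^ k := by positivity
  have h3 := Nat.div_add_mod n (2 ^ k)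
  have h4 := Nat.mod_lt n h2
  have h5 : 2 ^ k * (n / 2 ^ k + 1) = 2 ^ k * (n / 2 ^ k) + 2 ^ k := by ring
  refine ⟨2 ^ k * (n / 2 ^ k + 1) - 1, by omega, by omega, ?_⟩
  have h6 : 2 ^ k * (n / 2 ^ k + 1) - 1 + 1 = 2 ^ k * (n / 2 ^ k + 1) := by omega
  rw [h6]
  have : Fact (Nat.Prime 2) := ⟨Nat.prime_two⟩
  have h7 : 2 ^ k * (n / 2 ^ k + 1) ≠ 0 := by positivity
  exact (padicValNat_dvd_iff_le h7).1 (Dvd.intro _ rfl)

end Pool.Agent.H58Slow
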