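import Pool.Agent.H58Slow.Basic
set_option autoImplicit false
namespace Pool.Agent.H58Slow
open Finset

theorem val_even (y : ℕ) : padicValNat 2 (2 * y + 1) = 0 :=
  padicValNat.eq_zero_of_not_dvd (by omega)

theorem val_odd (y : ℕ) : padicValNat 2 (2 * y + 1 + 1) = padicValNat 2 (y + 1) + 1 := by
  have : Fact (Nat.Prime 2) := ⟨Nat.prime_two⟩
  rw [show 2 * y + 1 + 1 = 2 * (y + 1) by ring, padicValNat.mul (by norm_num) (by omega),
    padicValNat.self (by norm_num)]
  omega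

theorem sum_two (f : ℕ → ℕ) (n : ℕ) :
    ∑ x ∈ range (2 * n), f x = ∑ y ∈ range n, (f (2 * y) + f (2 * y + 1)) := by
  induction n with
  | zero => simp
  | succ n ih =>
    rw [show 2 * (n + 1) = 2 * n + 1 + 1 by ring, sum_range_succ, sum_range_succ, ih,
      sum_range_succ]
    ring

theorem sum_val (j : ℕ) : ∑ x ∈ range (2 ^ j), 2 ^ padicValNat 2 (x + 1) ≤ (j + 1) * 2 ^ j := by
  induction j with
  | zero => simp
  | succ j ih =>
    rw [show 2 ^ (j + 1) = 2 * 2 ^ j by ring, sum_two (fun x => 2 ^ padicValNat 2 (x + 1))]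
    have h1 : ∀ y ∈ range (2 ^ j), (2 ^ padicValNat 2 (2 * y + 1) +
        2 ^ padicValNat 2 (2 * y + 1 + 1)) = 1 + 2 * 2 ^ padicValNat 2 (y + 1) := by
      intro y _
      rw [val_even, val_odd, pow_succ]
      ring
    rw [sum_congr rfl h1, sum_add_distrib, ← mul_sum, sum_const, card_range, smul_eq_mul, mul_one]
    nlinarith [Nat.zero_le (2 ^ j)]

theorem log_pair (n : ℕ) (hn : 1 ≤ n) :
    ∑ d ∈ range (2 * n), (1 : ℝ) / 2 ^ (Nat.log 2 (d + 1)) =
      1 + ∑ d ∈ range n, (1 : ℝ) / 2 ^ (Nat.log 2 (d + 1)) - 1 / 2 ^ (Nat.log 2 n) / 2 := by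
  induction n, hn using Nat.le_induction with
  | base =>
    rw [show 2 * 1 = 1 + 1 from rfl, sum_range_succ, sum_range_one]
    have h1 : Nat.log 2 (0 + 1) = 0 := by norm_num
    have h2 : Nat.log 2 (1 + 1) = 1 := by
      rw [Nat.log_eq_iff] <;> norm_num
    rw [h1, h2]
    norm_num
  | succ n hn ih =>
    rw [show 2 * (n + 1) = 2 * n + 1 + 1 by ring, sum_range_succ, sum_range_succ, ih,
      sum_range_succ]
    have h1 : Nat.log 2 (2 * n + 1) = Nat.log 2 n + 1 := by
      rw [Nat.log_of_one_lt_of_le (by norm_num) (by omega)]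
      congr 2
      omega
    have h2 : Nat.log 2 (2 * n + 1 + 1) = Nat.log 2 (n + 1) + 1 := by
      rw [Nat.log_of_one_lt_of_le (by norm_num) (by omega)]
      congr 2
      omega
    rw [h1, h2, pow_succ, pow_succ]
    field_simp
    ring

theorem sum_log (j : ℕ) :
    ∑ d ∈ range (2 ^ j), (1 : ℝ) / 2 ^ (Nat.log 2 (d + 1)) ≤ j + 1 := by
  induction j with
  | zero => simp
  | succ j ih =>
    rw [show 2 ^ (j + 1) = 2 * 2 ^ j by ring, log_pair (2 ^ j) (Nat.one_le_two_pow)]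
    have : (0 : ℝ) ≤ 1 / 2 ^ (Nat.log 2 (2 ^ j)) / 2 := by positivity
    push_cast
    linarith

end Pool.Agent.H58Slow
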