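import Pool.Agent.H58Slow.Basic

set_option autoImplicit false

namespace Pool.Agent.H58Slow

open Finset

theorem m3_node_mono (n e : ℕ) (d : ℕ → ℕ) {s t : ℕ} (h : s ≤ t) : node n e d s ≤ node n e d t := by
  unfold node
  have := Finset.sum_le_sum_of_subset (f := d) (Finset.range_mono h)
  omega

theorem m3_P_congr {J J' : ℕ → ℕ} {m : ℕ} (h : ∀ x, x < m → J x = J' x) : P J m = P J' m := by
  unfold P
  exact Finset.sum_congr rfl fun x hx => by rw [h x (Finset.mem_range.1 hx)]

theorem m3_single {J J' : ℕ → ℕ} {m y : ℕ} (hy : y < m) (hP : P J m = P J' m)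
    (h : ∀ x, x < m → x ≠ y → J x = J' x) : J y = J' y := by
  unfold P at hP
  rw [← Finset.add_sum_erase _ _ (Finset.mem_range.2 hy),
    ← Finset.add_sum_erase _ (fun x => J' x + 1) (Finset.mem_range.2 hy)] at hP
  have h2 : ∑ x ∈ (range m).erase y, (J x + 1) = ∑ x ∈ (range m).erase y, (J' x + 1) := by
    refine Finset.sum_congr rfl fun x hx => ?_
    rw [Finset.mem_erase, Finset.mem_range] at hx
    rw [h x hx.2 hx.1]
  omega

theorem det {K : ℕ} {n e : ℕ} (he : 1 ≤ e) {d : ℕ → ℕ} (xs : ℕ → ℕ)
    (hxs : ∀ t, t < K → node n e d t ≤ xs t ∧ xs t < node n e d (t + 1))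
    {J J' : ℕ → ℕ} (hJ : Chain (P J) n e d K) (hJ' : Chain (P J') n e d K)
    (hag : ∀ x, x < node n e d K → (∀ t, t < K → x ≠ xs t) → J x = J' x) :
    ∀ x, x < node n e d K → J x = J' x := by
  have key : ∀ t, t ≤ K → ∀ x, x < node n e d t → J x = J' x := by
    intro t
    induction t with
    | zero =>
      intro _ x hx
      refine hag x (lt_of_lt_of_le hx (m3_node_mono n e d (Nat.zero_le K))) fun t' ht' h => ?_
      have h1 := (hxs t' ht').1
      have h2 := m3_node_mono n e d (Nat.zero_le t')
      omega
    | succ t ih =>
      intro ht x hx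
      have htK : t < K := ht
      have ih' := ih htK.le
      have hx0 : n + e ≤ node n e d t := by
        unfold node; omega
      have hoff : ∀ x, x < node n e d (t + 1) → x ≠ xs t → J x = J' x := by
        intro x hx hne
        by_cases hlt : x < node n e d t
        · exact ih' x hlt
        · refine hag x (lt_of_lt_of_le hx (m3_node_mono n e d ht)) fun t' ht' h => ?_
          have h1 := hxs t' ht'
          rcases lt_trichotomy t' t with h3 | h3 | h3
          · have h2 := m3_node_mono n e d (show t' + 1 ≤ t from h3)
            omega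
          · subst h3; exact hne h
          · have h2 := m3_node_mono n e d (show t + 1 ≤ t' from h3)
            omega
      have e1 : P J (n + e) = P J' (n + e) := m3_P_congr fun x hx => ih' x (by omega)
      have e2 : P J n = P J' n := m3_P_congr fun x hx => ih' x (by omega)
      have e3 : P J (node n e d t) = P J' (node n e d t) := m3_P_congr fun x hx => ih' x hx
      have c1 := hJ t htK
      have c2 := hJ' t htK
      rw [e1, e2, e3] at c1
      have c3 := c1.trans c2.symm
      have he' : (e : ℤ) ≠ 0 := by
        have : (1 : ℤ) ≤ e := by exact_mod_cast he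
        omega
      have c4 := mul_right_cancel₀ he' c3
      have e4 : P J (node n e d (t + 1)) = P J' (node n e d (t + 1)) := by
        have : (P J (node n e d (t + 1)) : ℤ) = P J' (node n e d (t + 1)) := by linarith
        exact_mod_cast this
      by_cases hxe : x = xs t
      · subst hxe
        exact m3_single hx e4 hoff
      · exact hoff x hx hxe
  exact key K le_rfl

end Pool.Agent.H58Slow
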