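import Pool.Agent.H58Slow.Basic
set_option autoImplicit false
namespace Pool.Agent.H58Slow
open Finset

theorem chain_of_line {K N : ℕ} {F : ℕ → ℕ} {σ τ : ℝ} {T : Finset ℕ} (hT : ∀ x ∈ T, x ≤ N)
    (hl : ∀ x ∈ T, (F x : ℝ) = σ * x + τ) (hc : K + 2 ≤ T.card) :
    ∃ (n e : ℕ) (d : ℕ → ℕ), 1 ≤ e ∧ (∀ t, t < K → 1 ≤ d t) ∧ node n e d K ≤ N ∧
      Chain F n e d K := by
  classical
  let f : Fin (K + 2) ↪o ℕ := T.orderEmbOfCardLe hc
  have hf : ∀ i, f i ∈ T := fun i => T.orderEmbOfCardLe_mem hc i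
  let g : ℕ → ℕ := fun i => if h : i < K + 2 then f ⟨i, h⟩ else 0
  have hg : ∀ i, i < K + 2 → g i ∈ T := by
    intro i hi
    have : g i = f ⟨i, hi⟩ := dif_pos hi
    rw [this]
    exact hf _
  have hlt : ∀ i, i + 1 < K + 2 → g i < g (i + 1) := by
    intro i hi
    have h1 : g i = f ⟨i, by omega⟩ := dif_pos (by omega)
    have h2 : g (i + 1) = f ⟨i + 1, hi⟩ := dif_pos hi
    rw [h1, h2]
    exact f.strictMono (by rw [Fin.lt_def]; exact Nat.lt_succ_self i)
  have h01 := hlt 0 (by omega)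
  have hnode : ∀ t, t ≤ K →
      node (g 0) (g 1 - g 0) (fun i => g (i + 2) - g (i + 1)) t = g (t + 1) := by
    intro t ht
    induction t with
    | zero =>
      simp only [node, range_zero, sum_empty, add_zero, zero_add]
      simp only [zero_add] at h01
      omega
    | succ t ih =>
      have ih := ih (by omega)
      have h3 := hlt (t + 1) (by omega)
      simp only [node] at ih ⊢
      rw [sum_range_succ, ← add_assoc, ih]
      change g (t + 1) + (g (t + 2) - g (t + 1)) = g (t + 2)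
      change g (t + 1) < g (t + 2) at h3
      omega
  refine ⟨g 0, g 1 - g 0, fun i => g (i + 2) - g (i + 1), ?_, ?_, ?_, ?_⟩
  · simp only [zero_add] at h01
    omega
  · intro t ht
    have h3 := hlt (t + 1) (by omega)
    change g (t + 1) < g (t + 2) at h3
    show 1 ≤ g (t + 2) - g (t + 1)
    omega
  · rw [hnode K le_rfl]
    exact hT _ (hg _ (by omega))
  · intro t ht
    rw [hnode (t + 1) (by omega), hnode t (by omega)]
    have h3 := hlt (t + 1) (by omega)
    change g (t + 1) < g (t + 2) at h3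
    simp only [zero_add] at h01
    have e1 : g 0 + (g 1 - g 0) = g 1 := by omega
    rw [e1]
    have a0 := hl _ (hg 0 (by omega))
    have a1 := hl _ (hg 1 (by omega))
    have a2 := hl _ (hg (t + 1) (by omega))
    have a3 := hl _ (hg (t + 2) (by omega))
    have c1 : ((g 1 - g 0 : ℕ) : ℝ) = (g 1 : ℝ) - g 0 := Nat.cast_sub h01.le
    have c2 : ((g (t + 2) - g (t + 1) : ℕ) : ℝ) = (g (t + 2) : ℝ) - g (t + 1) :=
      Nat.cast_sub h3.le
    have key : ((F (g (t + 2)) : ℝ) - F (g (t + 1))) * ((g 1 - g 0 : ℕ) : ℝ) =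
        ((F (g 1) : ℝ) - F (g 0)) * ((g (t + 2) - g (t + 1) : ℕ) : ℝ) := by
      rw [a0, a1, a2, a3, c1, c2]
      ring
    exact_mod_cast key

end Pool.Agent.H58Slow
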