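import Mathlib

/-!
# A slowly growing sequence with few collinear points (MP_029ce3_co)

We construct a strictly increasing sequence of nonnegative integers `a 0 = 0 < a 1 < a 2 < …` with
`a n ^ 2 ≤ 16384 n ^ 3` such that every straight line contains at most 12 of the points `(n, a n)`.

Window `j` has length `p_j`, a prime with `j + 1 < p_j ≤ 2 (j + 1)`; on it
`a = B_j + s_j x + (x² mod p_j)`, `x` the position in the window, with slopes `s_j = 8 (j + 1)`.
Every line has at most two points in a window (a parabola modulo `p_j`), and it meets at most six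
windows, because the slopes increase by 8 and the parabola part is smaller than `p_j`.
-/

set_option autoImplicit false

namespace Pool.Agent.H58Slow.ThreeHalves

open Finset

theorem exists_p (j : ℕ) : ∃ p : ℕ, p.Prime ∧ j + 1 < p ∧ p ≤ 2 * (j + 1) :=
  Nat.exists_prime_lt_and_le_two_mul (j + 1) (by omega)

noncomputable def pr (j : ℕ) : ℕ := Classical.choose (exists_p j)

theorem pr_prime (j : ℕ) : (pr j).Prime := (Classical.choose_spec (exists_p j)).1
theorem pr_gt (j : ℕ) : j + 1 < pr j := (Classical.choose_spec (exists_p j)).2.1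
theorem pr_le (j : ℕ) : pr j ≤ 2 * (j + 1) := (Classical.choose_spec (exists_p j)).2.2

/-- start of window `j` -/
noncomputable def S (j : ℕ) : ℕ := ∑ i ∈ range j, pr i

/-- slope in window `j` -/
def s (j : ℕ) : ℕ := 8 * (j + 1)

/-- value at the start of window `j` -/
noncomputable def B (j : ℕ) : ℕ := ∑ i ∈ range j, s i * pr i

theorem S_succ (j : ℕ) : S (j + 1) = S j + pr j := by simp [S, sum_range_succ]
theorem B_succ (j : ℕ) : B (j + 1) = B j + s j * pr j := by simp [B, sum_range_succ]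
theorem S_zero : S 0 = 0 := by simp [S]
theorem B_zero : B 0 = 0 := by simp [B]

theorem S_mono : Monotone S := monotone_nat_of_le_succ (fun j => by rw [S_succ]; omega)

theorem le_S (j : ℕ) : j ≤ S j := by
  induction j with
  | zero => exact Nat.zero_le _
  | succ j ih =>
    rw [S_succ]
    have := pr_gt j
    omega

/-- the window of `n` -/
noncomputable def idx (n : ℕ) : ℕ := Nat.findGreatest (fun j => S j ≤ n) n

theorem S_idx_le (n : ℕ) : S (idx n) ≤ n :=
  Nat.findGreatest_spec (P := fun j => S j ≤ n) (Nat.zero_le n) (by simp [S_zero])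

theorem lt_S_idx (n : ℕ) : n < S (idx n + 1) := by
  by_contra h
  push Not at h
  have h1 : idx n + 1 ≤ n := (le_S _).trans h
  exact Nat.findGreatest_is_greatest (P := fun j => S j ≤ n) (Nat.lt_succ_self _) h1 h

theorem idx_eq {n j : ℕ} (h1 : S j ≤ n) (h2 : n < S (j + 1)) : idx n = j := by
  have h3 := S_idx_le n
  have h4 := lt_S_idx n
  rcases Nat.lt_trichotomy (idx n) j with h | h | h
  · have := S_mono (show idx n + 1 ≤ j from h)
    omega
  · exact h
  · have := S_mono (show j + 1 ≤ idx n from h)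
    omega

/-- the sequence -/
noncomputable def a (n : ℕ) : ℕ :=
  B (idx n) + s (idx n) * (n - S (idx n)) + (n - S (idx n)) ^ 2 % pr (idx n)

theorem a_eq {j x : ℕ} (hx : x < pr j) : a (S j + x) = B j + s j * x + x ^ 2 % pr j := by
  have h : idx (S j + x) = j := idx_eq (by omega) (by rw [S_succ]; omega)
  unfold a
  rw [h, Nat.add_sub_cancel_left]

theorem exists_rep (n : ℕ) : ∃ x, x < pr (idx n) ∧ n = S (idx n) + x := by
  have h1 := S_idx_le n
  have h2 := lt_S_idx n
  rw [S_succ] at h2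
  exact ⟨n - S (idx n), by omega, by omega⟩

theorem pr_le_s (j : ℕ) : pr j ≤ s j := by
  have := pr_le j
  unfold s
  omega

theorem a_lt_succ (n : ℕ) : a n < a (n + 1) := by
  obtain ⟨x, hx, hn⟩ := exists_rep n
  set j := idx n with hj
  have hps := pr_le_s j
  have hp0 : 0 < pr j := (pr_prime j).pos
  have hr : x ^ 2 % pr j < pr j := Nat.mod_lt _ hp0
  rw [hn, a_eq hx]
  rcases Nat.lt_or_ge (x + 1) (pr j) with h | h
  · rw [show S j + x + 1 = S j + (x + 1) by ring, a_eq h]
    have : s j * (x + 1) = s j * x + s j := by ring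
    omega
  · have hx' : x + 1 = pr j := by omega
    have h1 : S j + x + 1 = S (j + 1) + 0 := by rw [S_succ]; omega
    rw [h1, a_eq (pr_prime (j + 1)).pos, B_succ, ← hx']
    have : s j * (x + 1) = s j * x + s j := by ring
    rw [← hx'] at hr hps
    omega

theorem a_mono : StrictMono a := strictMono_nat_of_lt_succ a_lt_succ

theorem B_le (j : ℕ) : B j ≤ 16 * j ^ 3 := by
  induction j with
  | zero => simp [B_zero]
  | succ j ih =>
    rw [B_succ]
    have h1 := pr_le j
    have h2 : s j * pr j ≤ 8 * (j + 1) * (2 * (j + 1)) := Nat.mul_le_mul_left _ h1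
    nlinarith

theorem sq_le_S (j : ℕ) (hj : 1 ≤ j) : (j + 1) ^ 2 ≤ 4 * S j := by
  induction j, hj using Nat.le_induction with
  | base =>
    have := pr_gt 0
    simp only [S, sum_range_one]
    omega
  | succ j hj ih =>
    rw [S_succ]
    have := pr_gt j
    nlinarith

theorem a_bound (n : ℕ) : a n ^ 2 ≤ 16384 * n ^ 3 := by
  obtain ⟨x, hx, hn⟩ := exists_rep n
  set j := idx n with hj
  have hps := pr_le_s j
  have hp0 : 0 < pr j := (pr_prime j).pos
  have hr : x ^ 2 % pr j < pr j := Nat.mod_lt _ hp0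
  rcases Nat.eq_zero_or_pos n with h0 | hpos
  · have hx0 : x = 0 := by omega
    have hS0 : S j = 0 := by omega
    have hj0 : j = 0 := by have := le_S j; omega
    have : a n = 0 := by
      rw [hn, a_eq hx, hx0, hj0, B_zero]
      simp
    rw [this]
    simp
  · have h1 : a n ≤ 16 * (j + 1) ^ 3 := by
      have h2 : a n ≤ B (j + 1) := by
        rw [hn, a_eq hx, B_succ]
        have h3 : s j * x + s j ≤ s j * pr j := by
          calc s j * x + s j = s j * (x + 1) := by ring
            _ ≤ s j * pr j := Nat.mul_le_mul_left _ hx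
        omega
      exact h2.trans (B_le (j + 1))
    have h4 : (j + 1) ^ 2 ≤ 4 * n := by
      rcases Nat.eq_zero_or_pos j with h | h
      · rw [h]
        omega
      · have := sq_le_S j h
        omega
    calc a n ^ 2 ≤ (16 * (j + 1) ^ 3) ^ 2 := Nat.pow_le_pow_left h1 2
      _ = 256 * ((j + 1) ^ 2) ^ 3 := by ring
      _ ≤ 256 * (4 * n) ^ 3 := Nat.mul_le_mul_left _ (Nat.pow_le_pow_left h4 3)
      _ = 16384 * n ^ 3 := by ring

/-- three points of one window are never collinear -/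
theorem no_three {p x y z : ℕ} (hp : p.Prime) (hx : x < p) (hy : y < p) (hz : z < p)
    (hxy : x ≠ y) (hxz : x ≠ z) (hyz : y ≠ z) {g l : ℝ}
    (h1 : ((x ^ 2 % p : ℕ) : ℝ) = g + l * x) (h2 : ((y ^ 2 % p : ℕ) : ℝ) = g + l * y)
    (h3 : ((z ^ 2 % p : ℕ) : ℝ) = g + l * z) : False := by
  have e1 : (((x ^ 2 % p : ℕ) : ℝ) - ((y ^ 2 % p : ℕ) : ℝ)) * ((y : ℝ) - z)
      = (((y ^ 2 % p : ℕ) : ℝ) - ((z ^ 2 % p : ℕ) : ℝ)) * ((x : ℝ) - y) := by
    rw [h1, h2, h3]
    ring
  have e2 : (((x ^ 2 % p : ℕ) : ℤ) - ((y ^ 2 % p : ℕ) : ℤ)) * ((y : ℤ) - z)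
      = (((y ^ 2 % p : ℕ) : ℤ) - ((z ^ 2 % p : ℕ) : ℤ)) * ((x : ℤ) - y) := by
    exact_mod_cast e1
  have m1 : ((x ^ 2 % p : ℕ) : ℤ) ≡ (x : ℤ) ^ 2 [ZMOD p] := by
    push_cast
    exact Int.mod_modEq _ _
  have m2 : ((y ^ 2 % p : ℕ) : ℤ) ≡ (y : ℤ) ^ 2 [ZMOD p] := by
    push_cast
    exact Int.mod_modEq _ _
  have m3 : ((z ^ 2 % p : ℕ) : ℤ) ≡ (z : ℤ) ^ 2 [ZMOD p] := by
    push_cast
    exact Int.mod_modEq _ _
  have m4 : ((x : ℤ) ^ 2 - y ^ 2) * ((y : ℤ) - z) ≡ ((y : ℤ) ^ 2 - z ^ 2) * ((x : ℤ) - y)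
      [ZMOD p] := by
    have k1 := ((m1.sub m2).mul_right ((y : ℤ) - z)).symm
    have k2 := (m2.sub m3).mul_right ((x : ℤ) - y)
    exact k1.trans (by rw [e2]; exact k2)
  have m5 : (p : ℤ) ∣ ((x : ℤ) - y) * (((y : ℤ) - z) * ((x : ℤ) - z)) := by
    have := m4.symm.dvd
    have e3 : ((x : ℤ) ^ 2 - y ^ 2) * ((y : ℤ) - z) - ((y : ℤ) ^ 2 - z ^ 2) * ((x : ℤ) - y)
        = ((x : ℤ) - y) * (((y : ℤ) - z) * ((x : ℤ) - z)) := by ring
    rwa [e3] at this
  have hp' : Prime (p : ℤ) := Nat.prime_iff_prime_int.mp hp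
  have key : ∀ u v : ℕ, u < p → v < p → u ≠ v → ¬ (p : ℤ) ∣ (u : ℤ) - v := by
    intro u v hu hv huv hd
    have := Int.eq_zero_of_abs_lt_dvd hd (by rw [abs_lt]; constructor <;> omega)
    omega
  rcases hp'.dvd_or_dvd m5 with h | h
  · exact key x y hx hy hxy h
  · rcases hp'.dvd_or_dvd h with h | h
    · exact key y z hy hz hyz h
    · exact key x z hx hz hxz h

theorem card_le_two_of_close (F : Finset ℕ) (h : ∀ u ∈ F, ∀ v ∈ F, u < v → v ≤ u + 1) :
    F.card ≤ 2 := by
  rcases F.eq_empty_or_nonempty with rfl | hF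
  · simp
  · have hsub : F ⊆ {F.min' hF, F.min' hF + 1} := by
      intro v hv
      have h1 := F.min'_le v hv
      rw [mem_insert, mem_singleton]
      rcases Nat.eq_or_lt_of_le h1 with h2 | h2
      · exact Or.inl h2.symm
      · have := h _ (F.min'_mem hF) v hv h2
        right
        omega
    exact (card_le_card hsub).trans card_le_two

/-! ### Lines against windows -/

/-- the height of the line over the base `B j` at the start of window `j` -/
noncomputable def g (σ τ : ℝ) (j : ℕ) : ℝ := σ * S j + τ - B j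

theorem g_succ (σ τ : ℝ) (j : ℕ) :
    g σ τ (j + 1) = g σ τ j + (σ - s j) * pr j := by
  unfold g
  rw [S_succ, B_succ]
  push_cast
  ring

/-- a point of window `j` on the line -/
def Hit (σ τ : ℝ) (j : ℕ) : Prop :=
  ∃ x r : ℕ, x < pr j ∧ r < pr j ∧ (r : ℝ) = g σ τ j + (σ - s j) * x

theorem hit_of_point {σ τ : ℝ} {n : ℕ} (hn : (a n : ℝ) = σ * n + τ) : Hit σ τ (idx n) := by
  obtain ⟨x, hx, hnx⟩ := exists_rep n
  refine ⟨x, x ^ 2 % pr (idx n), hx, Nat.mod_lt _ (pr_prime _).pos, ?_⟩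
  have h1 : a n = B (idx n) + s (idx n) * x + x ^ 2 % pr (idx n) := by
    conv_lhs => rw [hnx]
    exact a_eq hx
  have h2 : (n : ℝ) = (S (idx n) : ℝ) + x := by exact_mod_cast hnx
  rw [h1, h2] at hn
  push_cast at hn ⊢
  unfold g
  linarith

theorem s_cast (j : ℕ) : (s j : ℝ) = 8 * (j + 1) := by
  unfold s
  push_cast
  ring

theorem pr_gt' (j : ℕ) : (j : ℝ) + 1 < pr j := by exact_mod_cast pr_gt j
theorem pr_le' (j : ℕ) : (pr j : ℝ) ≤ 2 * (j + 1) := by exact_mod_cast pr_le j
theorem pr_pos' (j : ℕ) : (0 : ℝ) < pr j := by exact_mod_cast (pr_prime j).pos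

/-- windows whose slope is at most `σ - 8` -/
theorem close_minus {σ τ : ℝ} {j j' : ℕ} (hjj : j < j') (h : Hit σ τ j) (h' : Hit σ τ j')
    (hs : (s j' : ℝ) + 8 ≤ σ) : j' ≤ j + 1 := by
  by_contra hcon
  push Not at hcon
  obtain ⟨x, r, hx, hr, e⟩ := h
  obtain ⟨x', r', hx', hr', e'⟩ := h'
  have hslope : ∀ i, i ≤ j' → 8 ≤ σ - s i := by
    intro i hi
    rw [s_cast] at hs ⊢
    have : (i : ℝ) ≤ j' := by exact_mod_cast hi
    linarith
  -- the line is nonnegative over the start of window `j + 1`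
  have h0 : 0 ≤ g σ τ (j + 1) := by
    rw [g_succ]
    have h1 := hslope j hjj.le
    have h2 : (x : ℝ) ≤ pr j := by exact_mod_cast hx.le
    have h3 : (σ - s j) * x ≤ (σ - s j) * pr j := mul_le_mul_of_nonneg_left h2 (by linarith)
    have h4 : (0 : ℝ) ≤ r := Nat.cast_nonneg r
    linarith
  have h1 : ∀ i, j + 1 ≤ i → i ≤ j' → 0 ≤ g σ τ i := by
    intro i hi
    induction i, hi using Nat.le_induction with
    | base => intro _; exact h0
    | succ i hi ih =>
      intro hij
      have h2 := ih (by omega)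
      rw [g_succ]
      have h3 := hslope i (by omega)
      have h4 := pr_pos' i
      have h5 : 0 ≤ (σ - s i) * pr i := mul_nonneg (by linarith) h4.le
      linarith
  obtain ⟨i, rfl⟩ : ∃ i, j' = i + 1 := ⟨j' - 1, by omega⟩
  have h2 := h1 i (by omega) (by omega)
  have h3 : 8 * (pr i : ℝ) ≤ g σ τ (i + 1) := by
    rw [g_succ]
    have h4 := hslope i (by omega)
    have h5 : 8 * (pr i : ℝ) ≤ (σ - s i) * pr i :=
      mul_le_mul_of_nonneg_right h4 (pr_pos' i).le
    linarith
  have h6 : 0 ≤ (σ - s (i + 1)) * x' :=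
    mul_nonneg (by have := hslope (i + 1) le_rfl; linarith) (Nat.cast_nonneg x')
  have h7 : (r' : ℝ) < pr (i + 1) := by exact_mod_cast hr'
  have h8 := pr_le' (i + 1)
  have h9 := pr_gt' i
  have h10 : (0 : ℝ) ≤ i := Nat.cast_nonneg i
  push_cast at h8
  linarith

/-- windows whose slope is at least `σ + 8` -/
theorem close_plus {σ τ : ℝ} {j j' : ℕ} (hjj : j < j') (h : Hit σ τ j) (h' : Hit σ τ j')
    (hs : σ + 8 ≤ (s j : ℝ)) : j' ≤ j + 1 := by
  by_contra hcon
  push Not at hcon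
  obtain ⟨x, r, hx, hr, e⟩ := h
  obtain ⟨x', r', hx', hr', e'⟩ := h'
  have hslope : ∀ i, j ≤ i → σ - s i ≤ -8 := by
    intro i hi
    rw [s_cast] at hs ⊢
    have : (j : ℝ) ≤ i := by exact_mod_cast hi
    linarith
  have h0 : g σ τ (j + 1) < pr j := by
    rw [g_succ]
    have h1 := hslope j le_rfl
    have h2 : (x : ℝ) ≤ pr j := by exact_mod_cast hx.le
    have h3 : (σ - s j) * pr j ≤ (σ - s j) * x := mul_le_mul_of_nonpos_left h2 (by linarith)
    have h4 : (r : ℝ) < pr j := by exact_mod_cast hr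
    linarith
  have h00 : g σ τ (j + 2) < 0 := by
    rw [show j + 2 = (j + 1) + 1 from rfl, g_succ]
    have h1 := hslope (j + 1) (by omega)
    have h2 : (σ - s (j + 1)) * pr (j + 1) ≤ (-8) * pr (j + 1) :=
      mul_le_mul_of_nonneg_right h1 (pr_pos' (j + 1)).le
    have h3 := pr_gt' (j + 1)
    have h4 := pr_le' j
    have h5 : (0 : ℝ) ≤ j := Nat.cast_nonneg j
    push_cast at h3
    linarith
  have h1 : ∀ i, j + 2 ≤ i → g σ τ i < 0 := by
    intro i hi
    induction i, hi using Nat.le_induction with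
    | base => exact h00
    | succ i hi ih =>
      rw [g_succ]
      have h3 := hslope i (by omega)
      have h4 := pr_pos' i
      have h5 : (σ - s i) * pr i ≤ 0 := mul_nonpos_of_nonpos_of_nonneg (by linarith) h4.le
      linarith
  have h2 := h1 j' (by omega)
  have h3 : (σ - s j') * x' ≤ 0 :=
    mul_nonpos_of_nonpos_of_nonneg (by have := hslope j' hjj.le; linarith) (Nat.cast_nonneg x')
  have h4 : (0 : ℝ) ≤ r' := Nat.cast_nonneg r'
  linarith

/-- windows whose slope is within 8 of `σ` -/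
theorem close_mid {σ : ℝ} {j j' : ℕ} (h : σ - 8 < s j) (h' : (s j' : ℝ) < σ + 8) :
    j' ≤ j + 1 := by
  rw [s_cast] at h h'
  have h1 : (j' : ℝ) < j + 2 := by linarith
  have h2 : j' < j + 2 := by exact_mod_cast h1
  omega

theorem windows_card (σ τ : ℝ) (W : Finset ℕ) (hW : ∀ j ∈ W, Hit σ τ j) : W.card ≤ 6 := by
  classical
  have h1 : (W.filter (fun j => (s j : ℝ) + 8 ≤ σ)).card ≤ 2 := by
    refine card_le_two_of_close _ ?_
    intro u hu v hv huv
    rw [mem_filter] at hu hv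
    exact close_minus huv (hW u hu.1) (hW v hv.1) hv.2
  have h2 : (W.filter (fun j => σ + 8 ≤ (s j : ℝ))).card ≤ 2 := by
    refine card_le_two_of_close _ ?_
    intro u hu v hv huv
    rw [mem_filter] at hu hv
    exact close_plus huv (hW u hu.1) (hW v hv.1) hu.2
  have h3 : (W.filter (fun j => σ - 8 < (s j : ℝ) ∧ (s j : ℝ) < σ + 8)).card ≤ 2 := by
    refine card_le_two_of_close _ ?_
    intro u hu v hv _
    rw [mem_filter] at hu hv
    exact close_mid hu.2.1 hv.2.2
  have hsub : W ⊆ (W.filter (fun j => (s j : ℝ) + 8 ≤ σ) ∪ W.filter (fun j => σ + 8 ≤ (s j : ℝ)))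
      ∪ W.filter (fun j => σ - 8 < (s j : ℝ) ∧ (s j : ℝ) < σ + 8) := by
    intro j hj
    simp only [mem_union, mem_filter]
    by_cases c1 : (s j : ℝ) + 8 ≤ σ
    · exact Or.inl (Or.inl ⟨hj, c1⟩)
    · by_cases c2 : σ + 8 ≤ (s j : ℝ)
      · exact Or.inl (Or.inr ⟨hj, c2⟩)
      · push Not at c1 c2
        exact Or.inr ⟨hj, by linarith, c2⟩
  calc W.card ≤ _ := card_le_card hsub
    _ ≤ _ + _ := card_union_le _ _
    _ ≤ (_ + _) + _ := Nat.add_le_add_right (card_union_le _ _) _
    _ ≤ (2 + 2) + 2 := by omega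

theorem line_card (σ τ : ℝ) (T : Finset ℕ) (hT : ∀ n ∈ T, (a n : ℝ) = σ * n + τ) :
    T.card ≤ 12 := by
  classical
  have hW : (T.image idx).card ≤ 6 := by
    refine windows_card σ τ _ ?_
    intro j hj
    rw [mem_image] at hj
    obtain ⟨n, hn, rfl⟩ := hj
    exact hit_of_point (hT n hn)
  have hfib : ∀ j ∈ T.image idx, (T.filter (fun n => idx n = j)).card ≤ 2 := by
    intro j _
    by_contra hcon
    push Not at hcon
    obtain ⟨u, v, w, hu, hv, hw, huv, huw, hvw⟩ := two_lt_card_iff.mp hcon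
    rw [mem_filter] at hu hv hw
    have rep : ∀ n ∈ T, idx n = j → ∃ x, x < pr j ∧ n = S j + x ∧
        ((x ^ 2 % pr j : ℕ) : ℝ) = g σ τ j + (σ - s j) * x := by
      intro n hn hj
      obtain ⟨x, hx, hnx⟩ := exists_rep n
      rw [hj] at hx hnx
      refine ⟨x, hx, hnx, ?_⟩
      have h1 : a n = B j + s j * x + x ^ 2 % pr j := by
        conv_lhs => rw [hnx]
        exact a_eq hx
      have h2 : (n : ℝ) = (S j : ℝ) + x := by exact_mod_cast hnx
      have h3 := hT n hn
      rw [h1, h2] at h3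
      push_cast at h3 ⊢
      unfold g
      linarith
    obtain ⟨x, hx, hux, ex⟩ := rep u hu.1 hu.2
    obtain ⟨y, hy, hvy, ey⟩ := rep v hv.1 hv.2
    obtain ⟨z, hz, hwz, ez⟩ := rep w hw.1 hw.2
    exact no_three (pr_prime j) hx hy hz (by omega) (by omega) (by omega) ex ey ez
  have h1 := card_le_mul_card_image (f := idx) T 2 hfib
  omega

/-- **Main result.** There is a strictly increasing sequence with `a n ≤ 128 n ^ (3/2)` and at most
12 of the points `(n, a n)` on any line. -/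
theorem three_halves :
    ∃ a : ℕ → ℕ, StrictMono a ∧ (∀ n, 1 ≤ n → 0 < a n) ∧ (∀ n, a n ^ 2 ≤ 16384 * n ^ 3) ∧
      ∀ σ τ : ℝ, ∀ T : Finset ℕ, (∀ n ∈ T, (a n : ℝ) = σ * n + τ) → T.card ≤ 12 := by
  refine ⟨a, a_mono, ?_, a_bound, line_card⟩
  intro n hn
  have := a_mono (show 0 < n from hn)
  omega

end Pool.Agent.H58Slow.ThreeHalves
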